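import Pool.Agent.Y442.NM.Fin

/-!
# The derived length of groups of maximal class: an explicit logarithmic bound

Let `G` be a finite `p`-group of maximal class of order `p^n`. We say that `G` satisfies the
commutator condition if, whenever `γ_i(G)'` is not contained in `γ_k(G)` (`i ≥ 2`), each element `g`
of `γ_i(G)` outside of `γ_{i+1}(G)` has a commutator `[g, x]`, `x ∈ γ_{i+1}(G)`, which lies in
`γ_{k-1}(G)` and not in `γ_k(G)`. All nM-groups of maximal class satisfy it.

Let `S(G)` be the set of the subgroups `γ_i(G)'`, `1 ≤ i ≤ n`, and let `T(G)` be the set of those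
subgroups `γ_i(G)'`, `i ≥ 2`, that are not contained in `γ_p(G)`. We show, under the commutator
condition, that `2 ^ dl(G) ≤ 2 ^ 10 * (|T(G)| + 9) ^ 2` and that
`dl(G) ≤ (2 / log 2) * log |S(G)| + 17`.

This contains the answer of `DerivedLengthLog` (there are constants `a`, `b` such that
`dl(G) ≤ a log |S(G)| + b` for all nM-groups of maximal class), with explicit constants, a weaker
hypothesis, and with the smaller set `T(G)` in the place of `S(G)`. The proof uses the library of
`DerivedLengthLog` (`Pool.Agent.H436R2.NM`); new are the file `Pool.Agent.Y442.NM.Low`, in which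
only the derived subgroups outside of `γ_p(G)` are counted, and the file `Pool.Agent.Y442.NM.Fin`.
-/

set_option autoImplicit false

namespace Pool.Agent.Results.MP_565547_al.ExplicitBound

open scoped commutatorElement

universe u

/-- The `j`-th term `γ_j(G)` of the lower central series, numbered so that `γ_1(G) = G` and
`γ_{j+1}(G) = [γ_j(G), G]` (Mathlib numbers them from `0`). -/
def gam (G : Type u) [Group G] (j : ℕ) : Subgroup G := (⊤ : Subgroup G).lowerCentralSeries (j - 1)

open Classical in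
/-- The value at `g` of the induced class function `λ^G`, for a linear character `λ` of a
subgroup `N` of a finite group: `|N|⁻¹ ∑_x λ°(x g x⁻¹)`, with `λ° = λ` on `N` and `0` outside. -/
noncomputable def inducedChar {G : Type u} [Group G] [Fintype G] (N : Subgroup G) (lam : N →* ℂˣ)
    (g : G) : ℂ :=
  (Nat.card N : ℂ)⁻¹ *
    ∑ x : G, if h : x * g * x⁻¹ ∈ N then ((lam ⟨x * g * x⁻¹, h⟩ : ℂˣ) : ℂ) else 0

/-- nM-groups: the character of every irreducible complex representation `ρ` of `G` (on some `ℂ^d`)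
equals `λ^G` for a linear character `λ` of a normal subgroup `N` of `G`. -/
def IsNM (G : Type u) [Group G] [Fintype G] : Prop :=
  ∀ (d : ℕ) (ρ : Representation ℂ G (Fin d → ℂ)), ρ.IsIrreducible →
    ∃ (N : Subgroup G) (_ : N.Normal) (lam : N →* ℂˣ), ∀ g : G, ρ.character g = inducedChar N lam g

/-- The commutator condition for a group of order `p ^ n` of maximal class: if `γ_i(G)'` is not
contained in `γ_k(G)`, then each `g ∈ γ_i(G)` outside of `γ_{i+1}(G)` has a commutator `[g, x]` with
`x ∈ γ_{i+1}(G)` in `γ_{k-1}(G)` outside of `γ_k(G)`. -/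
def CommutatorCondition (G : Type u) [Group G] (n : ℕ) : Prop :=
  ∀ i k, 2 ≤ i → 1 ≤ k → k ≤ n → ¬ ⁅gam G i, gam G i⁆ ≤ gam G k →
    ∀ g ∈ gam G i, g ∉ gam G (i + 1) →
      ∃ x ∈ gam G (i + 1), ⁅g, x⁆ ∈ gam G (k - 1) ∧ ⁅g, x⁆ ∉ gam G k

/-- `S(G) = {γ_i(G)' : 1 ≤ i ≤ n}`. -/
def derivedSubgroups (G : Type u) [Group G] (n : ℕ) : Set (Subgroup G) :=
  {H | ∃ i, 1 ≤ i ∧ i ≤ n ∧ H = ⁅gam G i, gam G i⁆}

/-- `T(G)`: the subgroups `γ_i(G)'`, `2 ≤ i ≤ n`, which are not contained in `γ_p(G)`. -/
def lowDerivedSubgroups (G : Type u) [Group G] (p n : ℕ) : Set (Subgroup G) :=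
  {H | ∃ i, 2 ≤ i ∧ i ≤ n ∧ H = ⁅gam G i, gam G i⁆ ∧ ¬ H ≤ gam G p}

/-- The derived length of `G`: the least `d` with `G^(d) = 1`. -/
noncomputable def derivedLength (G : Type u) [Group G] : ℕ := sInf {d | derivedSeries G d = ⊥}

/-- All nM-groups of order `p ^ n` and nilpotency class `n - 1` satisfy the commutator condition;
and if a group of order `p ^ n` and nilpotency class `n - 1` satisfies the commutator condition,
then `2 ^ dl(G) ≤ 2 ^ 10 * (|T(G)| + 9) ^ 2`, where `|T(G)| < |S(G)|`, and
`dl(G) ≤ (2 / log 2) * log |S(G)| + 17`. -/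
theorem result (G : Type u) [Group G] [Fintype G] (p n : ℕ) (hp : p.Prime) (hn : 2 ≤ n)
    (hcard : Nat.card G = p ^ n) (hclass : Group.nilpotencyClass G = n - 1) :
    (IsNM G → CommutatorCondition G n) ∧
    (CommutatorCondition G n →
      2 ^ derivedLength G ≤ 2 ^ 10 * ((lowDerivedSubgroups G p n).ncard + 9) ^ 2 ∧
      (lowDerivedSubgroups G p n).ncard < (derivedSubgroups G n).ncard ∧
      (derivedLength G : ℝ) ≤
        2 / Real.log 2 * Real.log ((derivedSubgroups G n).ncard : ℝ) + 17) := by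
  have hMC : H436NM.MC p n G := H436NM.tG1 G p n hp hn hcard hclass
  exact ⟨fun h => Pool.Agent.Y442.NM.nmc_of_isNM G p n hMC h, fun h =>
    ⟨Pool.Agent.Y442.NM.dl_bound G p n hMC h, Pool.Agent.Y442.NM.lowSet_lt G p n hMC,
      Pool.Agent.Y442.NM.dl_real G p n hMC h⟩⟩

end Pool.Agent.Results.MP_565547_al.ExplicitBound
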